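import Pool.Agent.Lib.H92C.Fin
import Pool.Agent.Lib.H92I.Gr
import Pool.Agent.Lib.H92I.Bc

/-!
# MP_b67468: the large integral points of all the extremal rays of the Boij-Soederberg cone are Betti tables
-/

set_option autoImplicit false

open MvPolynomial

namespace Pool.Agent.Results.MP_b67468_ag.AllDegreeSequences

universe u

/-- The pure diagram π(d) of the degree sequence d_0 < ... < d_c: its entry at (a, d_a) is the product of 1 / |d_b - d_a| over
the b in 0..c other than a, and all its other entries are 0. -/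
noncomputable def pureDiagram {c : ℕ} (d : Fin (c + 1) → ℤ) (i : ℕ) (j : ℤ) : ℚ :=
  ∑ a : Fin (c + 1), if (a : ℕ) = i ∧ d a = j then ∏ b ∈ Finset.univ.erase a, 1 / |(d b : ℚ) - d a| else 0

/-- The subgroups G j of M are a grading of the module M over the polynomial ring k[x_1, .., x_n] with its standard grading:
M is their direct sum, and a form of degree e takes G j to G (j + e). -/
structure IsGrading (k : Type u) [Field k] (n : ℕ) {M : Type u} [AddCommGroup M] [Module (MvPolynomial (Fin n) k) M]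
    (G : ℤ → AddSubgroup M) : Prop where
  isInternal : DirectSum.IsInternal G
  smul_mem : ∀ (e : ℕ) (j : ℤ) (p : MvPolynomial (Fin n) k) (m : M), p.IsHomogeneous e → m ∈ G j → p • m ∈ G (j + e)

/-- A minimal graded free resolution of the module M with the grading G, written with matrices: the i-th free module has the basis
Fin (rank i), with basis vectors of the degrees deg i; all maps preserve degrees, and no entry of a matrix is a nonzero constant. -/
structure MinimalGradedResolution (k : Type u) [Field k] (n : ℕ) {M : Type u} [AddCommGroup M]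
    [Module (MvPolynomial (Fin n) k) M] (G : ℤ → AddSubgroup M) where
  rank : ℕ → ℕ
  deg : (i : ℕ) → Fin (rank i) → ℤ
  aug : (Fin (rank 0) → MvPolynomial (Fin n) k) →ₗ[MvPolynomial (Fin n) k] M
  diff : (i : ℕ) → (Fin (rank (i + 1)) → MvPolynomial (Fin n) k) →ₗ[MvPolynomial (Fin n) k]
    (Fin (rank i) → MvPolynomial (Fin n) k)
  aug_surjective : Function.Surjective aug
  exact_zero : LinearMap.range (diff 0) = LinearMap.ker aug
  exact_succ : ∀ i, LinearMap.range (diff (i + 1)) = LinearMap.ker (diff i)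
  aug_mem : ∀ a, aug (Pi.single a 1) ∈ G (deg 0 a)
  entry : ∀ i (a : Fin (rank i)) (b : Fin (rank (i + 1))), diff i (Pi.single b 1) a = 0 ∨
    ∃ e : ℕ, 0 < e ∧ deg (i + 1) b = deg i a + e ∧ (diff i (Pi.single b 1) a).IsHomogeneous e

/-- T is the Betti table of the module M with the grading G: in a minimal graded free resolution of M the i-th free module has
exactly T i j basis vectors of degree j, for all i and j. -/
def IsBettiTable (k : Type u) [Field k] (n : ℕ) {M : Type u} [AddCommGroup M] [Module (MvPolynomial (Fin n) k) M]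
    (G : ℤ → AddSubgroup M) (T : ℕ → ℤ → ℚ) : Prop :=
  ∃ R : MinimalGradedResolution k n G, ∀ i j, ((Finset.univ.filter fun a => R.deg i a = j).card : ℚ) = T i j

/-- the degree sequence as a function on ℕ -/
def dd {c : ℕ} (d : Fin (c + 1) → ℤ) (i : ℕ) : ℤ := if h : i < c + 1 then d ⟨i, h⟩ else 0

theorem dd_fin {c : ℕ} (d : Fin (c + 1) → ℤ) (a : Fin (c + 1)) : dd d a = d a := by
  simp [dd, a.2]

theorem prod_dd {c : ℕ} (d : Fin (c + 1) → ℤ) (a : Fin (c + 1)) :
    ∏ j ∈ (Finset.range (c + 1)).erase (a : ℕ), |dd d j - dd d a| = ∏ b ∈ Finset.univ.erase a, |d b - d a| := by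
  symm
  refine Finset.prod_nbij (fun b : Fin (c + 1) => (b : ℕ)) ?_ ?_ ?_ ?_
  · intro b hb
    rw [Finset.mem_erase] at hb ⊢
    exact ⟨fun h => hb.1 (Fin.ext h), Finset.mem_range.2 b.2⟩
  · intro b _ b' _ h
    exact Fin.ext h
  · intro j hj
    rw [Finset.mem_coe, Finset.mem_erase, Finset.mem_range] at hj
    exact ⟨⟨j, hj.2⟩, by
      rw [Finset.mem_coe, Finset.mem_erase]
      exact ⟨fun h => hj.1 (by rw [← h]), Finset.mem_univ _⟩, rfl⟩
  · intro b _
    rw [dd_fin, dd_fin]

theorem pd_of {c : ℕ} (d : Fin (c + 1) → ℤ) (a : Fin (c + 1)) (j : ℤ) :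
    pureDiagram d a j = if d a = j then ((∏ b ∈ Finset.univ.erase a, |d b - d a| : ℤ) : ℚ)⁻¹ else 0 := by
  rw [pureDiagram, Finset.sum_eq_single a]
  · by_cases h : d a = j
    · simp [h, Finset.prod_inv_distrib]
    · simp [h]
  · intro b _ hb
    have : ¬ ((b : ℕ) = a ∧ d b = j) := fun h => hb (Fin.ext h.1)
    rw [if_neg this]
  · simp

theorem pd_big {c : ℕ} (d : Fin (c + 1) → ℤ) (i : ℕ) (hi : c < i) (j : ℤ) : pureDiagram d i j = 0 := by
  rw [pureDiagram]
  refine Finset.sum_eq_zero fun a _ => ?_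
  have : ¬ ((a : ℕ) = i ∧ d a = j) := fun h => by omega
  rw [if_neg this]

theorem main_bc {k₀ : Type} {k : Type u} [Field k₀] [Field k] [Algebra k₀ k] {n c : ℕ} (hc : c ≤ n) (d : Fin (c + 1) → ℤ)
    (hd : StrictMono d) :
    ∃ N : ℚ, ∀ t : ℚ, N ≤ t → (∀ i j, ∃ z : ℤ, t * pureDiagram d i j = z) →
      ∃ (M : Type u) (_ : AddCommGroup M) (_ : Module (MvPolynomial (Fin n) k) M) (G : ℤ → AddSubgroup M),
        Module.Finite (MvPolynomial (Fin n) k) M ∧ IsGrading k n G ∧ IsBettiTable k n G (fun i j => t * pureDiagram d i j) := by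
  classical
  have hd' : ∀ i < c, dd d i < dd d (i + 1) := by
    intro i hi
    have h1 : i < c + 1 := by omega
    have h2 : i + 1 < c + 1 := by omega
    rw [dd, dd, dif_pos h1, dif_pos h2]
    exact hd (by rw [Fin.lt_def]; simp)
  obtain ⟨N₀, hN₀⟩ := H92C.main_all k₀ n c (dd d) hc hd'
  have hP : ∀ a : Fin (c + 1), 0 < ∏ b ∈ Finset.univ.erase a, |d b - d a| := by
    intro a
    refine Finset.prod_pos fun b hb => ?_
    rw [abs_pos, sub_ne_zero]
    intro h
    exact (Finset.mem_erase.1 hb).1 (hd.injective h)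
  refine ⟨N₀ * ((∏ b ∈ Finset.univ.erase 0, |d b - d 0| : ℤ) : ℚ) + 1, fun t ht hint => ?_⟩
  have ht0 : 0 < t := by
    have h1 : (0 : ℚ) ≤ N₀ * ((∏ b ∈ Finset.univ.erase 0, |d b - d 0| : ℤ) : ℚ) :=
      mul_nonneg (Nat.cast_nonneg _) (by exact_mod_cast (hP 0).le)
    linarith
  -- the ranks
  have hz : ∀ a : Fin (c + 1), ∃ z : ℕ, (z : ℚ) * ((∏ b ∈ Finset.univ.erase a, |d b - d a| : ℤ) : ℚ) = t := by
    intro a
    obtain ⟨z, hz⟩ := hint a (d a)
    rw [pd_of, if_pos rfl] at hz
    have hPa : (0 : ℚ) < ((∏ b ∈ Finset.univ.erase a, |d b - d a| : ℤ) : ℚ) := by exact_mod_cast hP a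
    have hzpos : (0 : ℚ) < z := by
      rw [← hz]
      positivity
    have hz0 : 0 < z := by exact_mod_cast hzpos
    refine ⟨z.toNat, ?_⟩
    have h3 : ((z.toNat : ℕ) : ℚ) = (z : ℚ) := by
      have : ((z.toNat : ℕ) : ℤ) = z := Int.toNat_of_nonneg hz0.le
      exact_mod_cast this
    rw [h3, ← hz, mul_assoc, inv_mul_cancel₀ hPa.ne', mul_one]
  choose z hz using hz
  set β : ℕ → ℕ := fun i => if h : i < c + 1 then z ⟨i, h⟩ else 0 with hβ
  have hβa : ∀ a : Fin (c + 1), β a = z a := by
    intro a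
    simp only [hβ]
    rw [dif_pos a.2]
  have hβ0 : ∀ i, c < i → β i = 0 := by
    intro i hi
    have : ¬ i < c + 1 := by omega
    simp only [hβ]
    rw [dif_neg this]
  have hN : N₀ < β 0 := by
    have h1 := hz 0
    have h2 := hβa 0
    have hP0 : (0 : ℚ) < ((∏ b ∈ Finset.univ.erase 0, |d b - d 0| : ℤ) : ℚ) := by exact_mod_cast hP 0
    have h3 : (N₀ : ℚ) * ((∏ b ∈ Finset.univ.erase 0, |d b - d 0| : ℤ) : ℚ) < (z 0 : ℚ) * ((∏ b ∈ Finset.univ.erase 0, |d b - d 0| : ℤ) : ℚ) := by
      rw [h1]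
      linarith
    have h4 : (N₀ : ℚ) < z 0 := lt_of_mul_lt_mul_right h3 hP0.le
    have h5 : N₀ < z 0 := by exact_mod_cast h4
    have h6 : β 0 = z 0 := by
      rw [← h2]
      rfl
    omega
  have hHK : ∀ i ≤ c, ∀ i' ≤ c,
      (β i : ℤ) * ∏ j ∈ (Finset.range (c + 1)).erase i, |dd d j - dd d i| =
        (β i' : ℤ) * ∏ j ∈ (Finset.range (c + 1)).erase i', |dd d j - dd d i'| := by
    intro i hi i' hi'
    have key : ∀ i ≤ c, (((β i : ℤ) * ∏ j ∈ (Finset.range (c + 1)).erase i, |dd d j - dd d i| : ℤ) : ℚ) = t := by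
      intro i hi
      have h1 := prod_dd d ⟨i, by omega⟩
      have h2 := hz ⟨i, by omega⟩
      have h3 := hβa ⟨i, by omega⟩
      simp only at h1 h3
      rw [h1, h3]
      push_cast at h2 ⊢
      exact h2
    have h1 := key i hi
    have h2 := key i' hi'
    exact_mod_cast h1.trans h2.symm
  obtain ⟨f, hf1, hf2⟩ := hN₀ β hβ0 (by omega) hN.le hHK
  obtain ⟨G, hG1, hG2, hG3⟩ := H92I.graded_coker (H92I.ex k (f 0)) (dd d (0 + 1) - dd d 0).toNat
    (fun a l => by rw [H92I.ex_single]; exact (hf1 0 a l).map _) (dd d 0)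
  refine ⟨(Fin (β 0) → MvPolynomial (Fin n) k) ⧸ LinearMap.range (H92I.ex k (f 0)), inferInstance, inferInstance, G,
    inferInstance, ⟨hG1, hG2⟩, ?_⟩
  refine ⟨{ rank := β
            deg := fun i _ => dd d i
            aug := (LinearMap.range (H92I.ex k (f 0))).mkQ
            diff := fun i => H92I.ex k (f i)
            aug_surjective := Submodule.mkQ_surjective _
            exact_zero := by rw [Submodule.ker_mkQ]
            exact_succ := fun i => H92I.ex_exact _ _ (hf2 i)
            aug_mem := fun a => hG3 a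
            entry := fun i a b => ?_ }, ?_⟩
  · right
    have hi : i + 1 < c + 1 := by
      by_contra h
      have h0 : β (i + 1) = 0 := hβ0 _ (by omega)
      rw [h0] at b
      exact b.elim0
    have h1 := hd' i (by omega)
    refine ⟨(dd d (i + 1) - dd d i).toNat, by omega, by omega, ?_⟩
    rw [H92I.ex_single]
    exact (hf1 i a b).map _
  · intro i j
    simp only
    by_cases hi : i < c + 1
    · have h1 := pd_of d ⟨i, hi⟩ j
      simp only at h1
      rw [h1]
      have h2 : dd d i = d ⟨i, hi⟩ := by simp [dd, hi]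
      have h3 := hz ⟨i, hi⟩
      have h4 : β i = z ⟨i, hi⟩ := hβa ⟨i, hi⟩
      by_cases hj : d ⟨i, hi⟩ = j
      · have hPa : (0 : ℚ) < ((∏ b ∈ Finset.univ.erase (⟨i, hi⟩ : Fin (c + 1)), |d b - d ⟨i, hi⟩| : ℤ) : ℚ) := by
          exact_mod_cast hP ⟨i, hi⟩
        rw [if_pos hj, h2, Finset.filter_true_of_mem (fun _ _ => hj), Finset.card_univ, Fintype.card_fin, h4, ← h3, mul_assoc,
          mul_inv_cancel₀ hPa.ne', mul_one]
      · rw [if_neg hj, h2, Finset.filter_false_of_mem (fun _ _ => hj)]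
        simp
    · have h4 : β i = 0 := hβ0 i (by omega)
      rw [pd_big d i (by omega), mul_zero]
      have : (Finset.univ.filter fun _ : Fin (β i) => dd d i = j).card ≤ β i := by
        refine (Finset.card_le_univ _).trans ?_
        rw [Fintype.card_fin]
      have h5 : (Finset.univ.filter fun _ : Fin (β i) => dd d i = j).card = 0 := by omega
      exact_mod_cast h5

/-- For every field k, all n ≥ c and every degree sequence d_0 < ... < d_c there is N such that every integral point t π(d) with t ≥ N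
is the Betti table of a finitely generated graded module over k[x_1, .., x_n]. -/
theorem result {k : Type u} [Field k] {n c : ℕ} (hc : c ≤ n) (d : Fin (c + 1) → ℤ) (hd : StrictMono d) :
    ∃ N : ℚ, ∀ t : ℚ, N ≤ t → (∀ i j, ∃ z : ℤ, t * pureDiagram d i j = z) →
      ∃ (M : Type u) (_ : AddCommGroup M) (_ : Module (MvPolynomial (Fin n) k) M) (G : ℤ → AddSubgroup M),
        Module.Finite (MvPolynomial (Fin n) k) M ∧ IsGrading k n G ∧ IsBettiTable k n G (fun i j => t * pureDiagram d i j) := by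
  obtain ⟨p, hp⟩ := CharP.exists k
  rcases CharP.char_is_prime_or_zero k p with h | h
  · have := Fact.mk h
    let _ : Algebra (ZMod p) k := ZMod.algebra k p
    exact main_bc (k₀ := ZMod p) hc d hd
  · subst h
    have : CharZero k := CharP.charP_to_charZero k
    exact main_bc (k₀ := ℚ) hc d hd

end Pool.Agent.Results.MP_b67468_ag.AllDegreeSequences
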